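import Pool.Agent.Lib.MP_658dbf_an_X.Final7

/-!
Exact value of the weighted L² infimum over monic integer polynomials for `0 < l ≤ 4 + √6`, and
two-sided bounds for `4 + √6 < l ≤ 7`.
-/

set_option autoImplicit false

namespace Pool.Agent.Results.MP_658dbf_an.ExactBeyondSix

/-- `∫_{-π}^{π} |1 - e^{iθ}|^{2l} |P(e^{iθ})|² dθ`. -/
noncomputable def weightedIntegral (l : ℝ) (P : Polynomial ℤ) : ℝ :=
  ∫ θ in (-Real.pi)..Real.pi,
    ‖1 - Complex.exp (θ * Complex.I)‖ ^ (2 * l) *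
      ‖Polynomial.aeval (Complex.exp (θ * Complex.I)) P‖ ^ 2

/-- `I(l)`: the infimum of the weighted integral over monic `P ∈ ℤ[z]`. -/
noncomputable def weightedInf (l : ℝ) : ℝ :=
  sInf {x : ℝ | ∃ P : Polynomial ℤ, P.Monic ∧ x = weightedIntegral l P}

/-- The fractional parameter `m = l - ⌈l⌉ + 1 ∈ (0, 1]`. -/
noncomputable def frac (l : ℝ) : ℝ := l - (⌈l⌉ : ℝ) + 1

/-- The closed form: `2π Γ(2l+1)/Γ(l+1)²` for `l ≤ 1`,
`4π l Γ(2m+1)/(Γ(m+1)Γ(m+2))`, `m = l - ⌈l⌉ + 1`, for `1 < l ≤ 6`, and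
`12π (m² + 3m + 4) Γ(2m+1)/(Γ(m+1)Γ(m+3))`, `m = l - 6`, for `l > 6`. -/
noncomputable def value (l : ℝ) : ℝ :=
  if l ≤ 1 then 2 * Real.pi * Real.Gamma (2 * l + 1) / Real.Gamma (l + 1) ^ 2
  else if l ≤ 6 then 4 * Real.pi * l * Real.Gamma (2 * frac l + 1) /
    (Real.Gamma (frac l + 1) * Real.Gamma (frac l + 2))
  else 12 * Real.pi * ((l - 6) ^ 2 + 3 * (l - 6) + 4) * Real.Gamma (2 * (l - 6) + 1) /
    (Real.Gamma (l - 6 + 1) * Real.Gamma (l - 6 + 3))

private theorem result_six (l : ℝ) (h0 : 0 < l) (h6 : l ≤ 6) : weightedInf l = value l := by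
  have hdef : weightedInf l = Pool.Agent.MP658dbf.wInf l := rfl
  rw [hdef]
  unfold value
  split_ifs with h1
  · rw [Pool.Agent.MP658dbf.wInf_zero h0 h1, Pool.Agent.MP658dbf.wh_zero h0]
    ring
  · push Not at h1
    have hc1 : (2 : ℤ) ≤ ⌈l⌉ := by
      have : (1 : ℤ) < ⌈l⌉ := by
        rw [Int.lt_ceil]; exact_mod_cast h1
      omega
    have hc6 : ⌈l⌉ ≤ 6 := by
      rw [Int.ceil_le]; exact_mod_cast h6
    obtain ⟨n, hn⟩ : ∃ n : ℕ, (n : ℤ) = ⌈l⌉ - 1 := ⟨(⌈l⌉ - 1).toNat, by omega⟩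
    have hn1 : 1 ≤ n := by omega
    have hn5 : n ≤ 5 := by omega
    have hnr : (n : ℝ) = (⌈l⌉ : ℝ) - 1 := by
      have : ((n : ℤ) : ℝ) = ((⌈l⌉ - 1 : ℤ) : ℝ) := by rw [hn]
      push_cast at this
      exact this
    have hm0 : 0 < frac l := by
      unfold frac
      have := Int.ceil_lt_add_one l
      linarith
    have hm1 : frac l ≤ 1 := by
      unfold frac
      have := Int.le_ceil l
      linarith
    have hl : l = n + frac l := by unfold frac; rw [hnr]; ring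
    have h := Pool.Agent.MP658dbf.wInf_eq_of_good hm0 hm1 hn1
      (Pool.Agent.MP658dbf.good_all n hn1 hn5) (Pool.Agent.MP658dbf.cnt_all n hn1 hn5)
    rw [← hl] at h
    rw [h]
    have h2 := Pool.Agent.MP658dbf.closed_form hm0 n
    rw [← hl] at h2
    exact h2

theorem result (l : ℝ) (h0 : 0 < l) (h6 : l ≤ 4 + Real.sqrt 6) : weightedInf l = value l := by
  rcases le_or_gt l 6 with h | h
  · exact result_six l h0 h
  have hm : 0 < l - 6 := by linarith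
  have hs : Real.sqrt 6 ^ 2 = 6 := Real.sq_sqrt (by norm_num)
  have hs0 : 0 ≤ Real.sqrt 6 := Real.sqrt_nonneg 6
  have hq : (l - 6) ^ 2 + 4 * (l - 6) ≤ 2 := by nlinarith
  have h1 := Pool.Agent.MP658x.wInf_six hm hq
  have h2 : 6 + (l - 6) = l := by ring
  rw [h2] at h1
  have hdef : weightedInf l = Pool.Agent.MP658dbf.wInf l := rfl
  rw [hdef, h1]
  unfold value
  rw [if_neg (by linarith), if_neg (by linarith)]

end Pool.Agent.Results.MP_658dbf_an.ExactBeyondSix
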