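import Pool.Agent.Lib.MP_658dbf_an_C.Diff
import Pool.Agent.Lib.MP_658dbf_an_C.Range

/-!
`I(l)` is locally semiconcave on `(0, ∞)`; its values near and its one-sided derivatives at the
natural numbers.
-/

set_option autoImplicit false

open Set Filter Topology

namespace Pool.Agent.Results.MP_658dbf_an.KinksAtIntegers

/-- `∫_{-π}^{π} |1 - e^{iθ}|^{2l} |P(e^{iθ})|² dθ`. -/
noncomputable def weightedIntegral (l : ℝ) (P : Polynomial ℤ) : ℝ :=
  ∫ θ in (-Real.pi)..Real.pi,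
    ‖1 - Complex.exp (θ * Complex.I)‖ ^ (2 * l) *
      ‖Polynomial.aeval (Complex.exp (θ * Complex.I)) P‖ ^ 2

/-- `I(l)`: the infimum of the weighted integral over monic `P ∈ ℤ[z]`. -/
noncomputable def weightedInf (l : ℝ) : ℝ :=
  sInf {x : ℝ | ∃ P : Polynomial ℤ, P.Monic ∧ x = weightedIntegral l P}

/-- `∑_{i ≠ j} f_i f_j / |i - j|` for the coefficients `f_i` of `F`. -/
noncomputable def energy (F : Polynomial ℤ) : ℝ :=
  ∑ i ∈ F.support, ∑ j ∈ F.support,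
    if i = j then (0 : ℝ) else ((F.coeff i : ℝ) * F.coeff j) / |(i : ℝ) - j|

/-- The numbers `-2π ∑_{i ≠ j} f_i f_j / |i - j|` with `F = (z - 1)^k P`, where `P` is monic and
attains `I(k)`. -/
def slopes (k : ℕ) : Set ℝ :=
  {x : ℝ | ∃ P : Polynomial ℤ, P.Monic ∧ weightedIntegral k P = weightedInf k ∧
    x = -(2 * Real.pi) * energy ((Polynomial.X - 1) ^ k * P)}

theorem result :
    (∀ l : ℝ, 0 < l → ∃ L : ℝ, ∃ ε : ℝ, 0 < ε ∧ ∀ x y : ℝ, |x - l| < ε → |y - l| < ε →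
      |weightedInf x - weightedInf y| ≤ L * |x - y|) ∧
    (∀ l : ℝ, 0 < l → ∃ M : ℝ, ∃ ε : ℝ, 0 < ε ∧
      ConvexOn ℝ (Ioo (l - ε) (l + ε)) (fun x => M * x ^ 2 - weightedInf x)) ∧
    (∀ l : ℝ, 0 < l → ∃ r q : ℝ, HasDerivWithinAt weightedInf r (Ioi l) l ∧
      HasDerivWithinAt weightedInf q (Iio l) l ∧ r ≤ q) ∧
    {l : ℝ | 0 < l ∧ ¬ DifferentiableAt ℝ weightedInf l}.Countable ∧
    (∀ k : ℕ, 1 ≤ k → ∃ ε : ℝ, 0 < ε ∧ ∀ l : ℝ, |l - k| < ε →
      (∀ P : Polynomial ℤ, P.Monic → weightedIntegral l P ≤ weightedInf l + 1 / 2 →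
        weightedIntegral k P = weightedInf k) ∧
      weightedInf l = sInf {x : ℝ | ∃ P : Polynomial ℤ, P.Monic ∧
        weightedIntegral k P = weightedInf k ∧ x = weightedIntegral l P}) ∧
    (∀ k : ℕ, 1 ≤ k →
      (slopes k).Nonempty ∧ BddBelow (slopes k) ∧ BddAbove (slopes k) ∧
      HasDerivWithinAt weightedInf (sInf (slopes k)) (Ioi (k : ℝ)) k ∧
      HasDerivWithinAt weightedInf (sSup (slopes k)) (Iio (k : ℝ)) k ∧
      sInf (slopes k) ≤ 0 ∧ 0 ≤ sSup (slopes k) ∧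
      (DifferentiableAt ℝ weightedInf k ↔ ∀ x ∈ slopes k, x = 0)) ∧
    (∀ k : ℕ, 1 ≤ k → weightedInf k = 4 * Real.pi * k →
      -(4 * Real.pi * (k - 1)) ≤ sInf (slopes k) ∧
      (2 ≤ k → sSup (slopes k) ≤ 2 * Real.pi * (k + 2))) ∧
    (∀ k ∈ ({1, 2, 3, 4, 5, 6, 7, 8, 9, 10, 12} : Finset ℕ),
      weightedInf k = 4 * Real.pi * k ∧ 0 < sSup (slopes k) ∧
      ¬ DifferentiableAt ℝ weightedInf k) ∧
    (∀ k ∈ ({2, 3, 4, 5, 6, 7, 8, 10} : Finset ℕ),
      sInf (slopes k) < 0 ∧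
      ∃ ε : ℝ, 0 < ε ∧ ∀ l : ℝ, l ≠ k → |l - k| < ε → weightedInf l < weightedInf k) := by
  have hdef : weightedInf = Pool.Agent.MP658dbf.wInf := rfl
  have hint : weightedIntegral = Pool.Agent.MP658dbf.wInt := rfl
  have hsl : ∀ k : ℕ, 1 ≤ k → slopes k = Pool.Agent.MP658c.Slopes k := by
    intro k hk
    ext x
    constructor
    · rintro ⟨P, hP, h1, h2⟩
      exact ⟨P, hP, h1, h2.trans (Pool.Agent.MP658c.dI_eq k hk P).symm⟩
    · rintro ⟨P, hP, h1, h2⟩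
      exact ⟨P, hP, h1, h2.trans (Pool.Agent.MP658c.dI_eq k hk P)⟩
  refine ⟨?_, ?_, ?_, ?_, ?_, ?_, ?_, ?_, ?_⟩
  · intro l hl
    rw [hdef]
    exact Pool.Agent.MP658c.lip hl
  · intro l hl
    rw [hdef]
    exact Pool.Agent.MP658c.convex_near hl
  · intro l hl
    rw [hdef]
    exact Pool.Agent.MP658c.one_sided hl
  · rw [hdef]
    exact Pool.Agent.MP658c.countable_bad
  · intro k hk
    rw [hdef, hint]
    exact Pool.Agent.MP658c.near_opt k hk
  · intro k hk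
    rw [hdef, hsl k hk]
    exact ⟨Pool.Agent.MP658c.slopes_nonempty k hk, Pool.Agent.MP658c.slopes_bddBelow k hk,
      Pool.Agent.MP658c.slopes_bddAbove k hk, Pool.Agent.MP658c.right_deriv k hk,
      Pool.Agent.MP658c.left_deriv k hk, Pool.Agent.MP658c.inf_nonpos k hk,
      Pool.Agent.MP658c.sup_nonneg k hk, Pool.Agent.MP658c.diff_iff k hk⟩
  · intro k hk hv
    rw [hdef] at hv
    rw [hsl k hk]
    exact ⟨Pool.Agent.MP658c.lower_ge k hk hv, fun h2 => Pool.Agent.MP658c.upper_le k h2 hv⟩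
  · intro k hk
    have hk1 : 1 ≤ k := by
      simp only [Finset.mem_insert, Finset.mem_singleton] at hk
      omega
    rw [hdef, hsl k hk1]
    exact ⟨Pool.Agent.MP658q.exact_nat k hk, Pool.Agent.MP658c.pos_all k hk,
      Pool.Agent.MP658c.not_diff k hk⟩
  · intro k hk
    have hk1 : 1 ≤ k := by
      simp only [Finset.mem_insert, Finset.mem_singleton] at hk
      omega
    rw [hdef, hsl k hk1]
    exact ⟨Pool.Agent.MP658c.neg_all k hk, Pool.Agent.MP658c.local_max_all k hk⟩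

end Pool.Agent.Results.MP_658dbf_an.KinksAtIntegers
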