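import Pool.Agent.Lib.MP_658dbf_an_X.Final7

/-!
A lower bound `B(l)` for the weighted L² infimum `I(l)` over monic integer polynomials, for all
`l > 1`; for non-integer `l` equality holds if and only if `l < 6`.
-/

set_option autoImplicit false

namespace Pool.Agent.Results.MP_658dbf_an.StrictLowerBound

/-- `∫_{-π}^{π} |1 - e^{iθ}|^{2l} |P(e^{iθ})|² dθ`. -/
noncomputable def weightedIntegral (l : ℝ) (P : Polynomial ℤ) : ℝ :=
  ∫ θ in (-Real.pi)..Real.pi,
    ‖1 - Complex.exp (θ * Complex.I)‖ ^ (2 * l) *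
      ‖Polynomial.aeval (Complex.exp (θ * Complex.I)) P‖ ^ 2

/-- `I(l)`: the infimum of the weighted integral over monic `P ∈ ℤ[z]`. -/
noncomputable def weightedInf (l : ℝ) : ℝ :=
  sInf {x : ℝ | ∃ P : Polynomial ℤ, P.Monic ∧ x = weightedIntegral l P}

/-- The fractional parameter `m = l - ⌈l⌉ + 1 ∈ (0, 1]`. -/
noncomputable def frac (l : ℝ) : ℝ := l - (⌈l⌉ : ℝ) + 1

/-- The bound `B(l) = 4π l Γ(2m+1)/(Γ(m+1)Γ(m+2))`, `m = l - ⌈l⌉ + 1`. -/
noncomputable def bound (l : ℝ) : ℝ :=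
  4 * Real.pi * l * Real.Gamma (2 * frac l + 1) /
    (Real.Gamma (frac l + 1) * Real.Gamma (frac l + 2))

theorem result (l : ℝ) (h1 : 1 < l) :
    bound l ≤ weightedInf l ∧ ((∀ n : ℤ, l ≠ n) → (weightedInf l = bound l ↔ l < 6)) := by
  have hdef : weightedInf l = Pool.Agent.MP658dbf.wInf l := rfl
  rw [hdef]
  have hc1 : (2 : ℤ) ≤ ⌈l⌉ := by
    have : (1 : ℤ) < ⌈l⌉ := by
      rw [Int.lt_ceil]; exact_mod_cast h1
    omega
  obtain ⟨n, hn⟩ : ∃ n : ℕ, (n : ℤ) = ⌈l⌉ - 1 := ⟨(⌈l⌉ - 1).toNat, by omega⟩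
  have hn1 : 1 ≤ n := by omega
  have hnr : (n : ℝ) = (⌈l⌉ : ℝ) - 1 := by
    have : ((n : ℤ) : ℝ) = ((⌈l⌉ - 1 : ℤ) : ℝ) := by rw [hn]
    push_cast at this
    exact this
  have hm0 : 0 < frac l := by
    unfold frac
    have := Int.ceil_lt_add_one l
    linarith
  have hm1 : frac l ≤ 1 := by
    unfold frac
    have := Int.le_ceil l
    linarith
  have hl : l = n + frac l := by unfold frac; rw [hnr]; ring
  have h := Pool.Agent.MP658dbf.wInf_lower hm0 hm1 hn1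
  rw [← hl] at h
  have h2 := Pool.Agent.MP658dbf.closed_form hm0 n
  rw [← hl] at h2
  have hb : bound l = (2 * Real.pi) *
      (2 * l * Pool.Agent.MP658dbf.wh (frac l) 0 / (1 + frac l)) := h2.symm
  refine ⟨by rw [hb]; exact h, fun hint => ⟨fun heq => ?_, fun h6 => ?_⟩⟩
  · by_contra hcon
    push Not at hcon
    have h6 : 6 < l := lt_of_le_of_ne hcon fun h3 => hint 6 (by rw [← h3]; norm_num)
    have hn6 : 6 ≤ n := by
      have : (6 : ℤ) < ⌈l⌉ := by
        rw [Int.lt_ceil]; exact_mod_cast h6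
      omega
    have hlt : frac l < 1 := by
      refine lt_of_le_of_ne hm1 fun h3 => ?_
      apply hint ⌈l⌉
      unfold frac at h3
      linarith
    have h3 := Pool.Agent.MP658x.wInf_strict hm0 hlt hn6
    rw [← hl] at h3
    rw [heq, hb] at h3
    exact lt_irrefl _ h3
  · have hc6 : ⌈l⌉ ≤ 6 := by
      rw [Int.ceil_le]; exact_mod_cast h6.le
    have hn5 : n ≤ 5 := by omega
    have h3 := Pool.Agent.MP658dbf.wInf_eq_of_good hm0 hm1 hn1
      (Pool.Agent.MP658dbf.good_all n hn1 hn5) (Pool.Agent.MP658dbf.cnt_all n hn1 hn5)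
    rw [← hl] at h3
    rw [h3, hb]

end Pool.Agent.Results.MP_658dbf_an.StrictLowerBound
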