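import Pool.Agent.Lib.MP_658dbf_an_Q.NatVal

/-!
Upper bounds for the weighted L² infimum `I(l)` over monic integer polynomials, for all `l`.
-/

set_option autoImplicit false

namespace Pool.Agent.Results.MP_658dbf_an.UpperBounds

/-- `∫_{-π}^{π} |1 - e^{iθ}|^{2l} |P(e^{iθ})|² dθ`. -/
noncomputable def weightedIntegral (l : ℝ) (P : Polynomial ℤ) : ℝ :=
  ∫ θ in (-Real.pi)..Real.pi,
    ‖1 - Complex.exp (θ * Complex.I)‖ ^ (2 * l) *
      ‖Polynomial.aeval (Complex.exp (θ * Complex.I)) P‖ ^ 2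

/-- `I(l)`: the infimum of the weighted integral over monic `P ∈ ℤ[z]`. -/
noncomputable def weightedInf (l : ℝ) : ℝ :=
  sInf {x : ℝ | ∃ P : Polynomial ℤ, P.Monic ∧ x = weightedIntegral l P}

/-- `a(x) = Γ(2x+1)/Γ(x+1)²`; the bound from `P = 1` is `I(l) ≤ 2π a(l)`. -/
noncomputable def a (x : ℝ) : ℝ := Real.Gamma (2 * x + 1) / Real.Gamma (x + 1) ^ 2

theorem result :
    (∀ (l : ℝ) (k : ℕ), 0 < l →
      weightedInf (l + k) ≤ weightedInf l * weightedInf k / (2 * Real.pi)) ∧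
    (∀ (k : ℕ) (d : ℝ), 1 ≤ k → 0 ≤ d → d ≤ 1 →
      weightedInf (k + d) ≤ 2 * Real.pi * ((k : ℝ) ^ 2 - k + 2) * a d) ∧
    (∀ l : ℝ, 1 ≤ l → weightedInf l ≤ 4 * Real.pi * (l ^ 2 - l + 2)) ∧
    (∀ l : ℝ, 0 < l → (weightedInf l = 2 * Real.pi * a l ↔ l ≤ 1)) ∧
    (∀ k : ℕ, 1 ≤ k → ∃ m : ℕ, weightedInf k = 4 * Real.pi * m ∧
      ∃ P : Polynomial ℤ, P.Monic ∧ weightedIntegral k P = weightedInf k) ∧
    (∀ k ∈ ({1, 2, 3, 4, 5, 6, 7, 8, 9, 10, 12} : Finset ℕ), weightedInf k = 4 * Real.pi * k ∧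
      ∀ d : ℝ, 0 ≤ d → d ≤ 1 → weightedInf (k + d) ≤ 4 * Real.pi * k * a d) ∧
    (weightedInf 11 = 44 * Real.pi ∨ weightedInf 11 = 48 * Real.pi) := by
  have hdef : ∀ l, weightedInf l = Pool.Agent.MP658dbf.wInf l := fun _ => rfl
  have hint : ∀ l P, weightedIntegral l P = Pool.Agent.MP658dbf.wInt l P := fun _ _ => rfl
  have ha : ∀ x, a x = Pool.Agent.MP658q.a0 x := fun _ => rfl
  simp only [hdef, hint, ha]
  refine ⟨?_, ?_, ?_, ?_, ?_, ?_, ?_⟩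
  · intro l k hl
    exact Pool.Agent.MP658q.wInf_add k hl.le
  · intro k d hk h0 h1
    have h := Pool.Agent.MP658q.up k hk h0 h1
    have e : (k : ℝ) ^ 2 - k + 2 = (k : ℝ) * (k - 1) + 2 := by ring
    rw [e]
    exact h
  · exact Pool.Agent.MP658q.growth
  · exact Pool.Agent.MP658q.attained_iff
  · intro k hk
    obtain ⟨m, h1, P, hP, h2⟩ := Pool.Agent.MP658q.nat_values k hk
    exact ⟨m, h1, P, hP, by rw [h1, h2]⟩
  · intro k hk
    exact ⟨Pool.Agent.MP658q.exact_nat k hk, fun d h0 h1 =>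
      Pool.Agent.MP658q.near_nat k hk h0 h1⟩
  · have h := Pool.Agent.MP658q.eleven
    push_cast at h
    exact h

end Pool.Agent.Results.MP_658dbf_an.UpperBounds
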